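import Pool.Agent.MP_1b52a1_al.H21.Final

namespace Pool.Agent.Results.MP_1b52a1_al.Q2Neg

open Pool.Agent.MP_1b52a1_al.H21 Filter Topology

/-- Negative answer to Q2: the first Grigorchuk group has a finite generating set (not containing
the identity) for which the ratios of consecutive sphere sizes do not converge. -/
theorem result : ∃ S : Finset Grig, (1 : Grig) ∉ S ∧ Subgroup.closure (S : Set Grig) = ⊤ ∧
    ¬ ∃ L : ℝ, Tendsto (fun n : ℕ => (sph (S : Set Grig) (n + 1) : ℝ) / (sph (S : Set Grig) n : ℝ))
      atTop (𝓝 L) := by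
  by_contra h
  push Not at h
  have h0 := h (SS_finite T_finite DD_finite).toFinset (by simp [SS])
    (by simpa using closure_SS TD_gen)
  have h1 := h (SS_finite V_finite W_finite).toFinset (by simp [SS])
    (by simpa using closure_SS VW_gen)
  simp only [Set.Finite.coe_toFinset] at h0 h1
  obtain ⟨L0, h0⟩ := h0
  obtain ⟨L1, h1⟩ := h1
  exact not_both h0 h1

end Pool.Agent.Results.MP_1b52a1_al.Q2Neg
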